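import Pool.Agent.Helper15_RES.Coc

set_option autoImplicit false

/-!
# Commuting conjugates of generators in an Artin group (MP_61f49c_al)

`cent`: if `x y = y x'` with `x, x'` in the standard parabolic subgroup of `U` and a generator `y`
outside `U`, then `x` belongs to the parabolic subgroup of the letters of `U` commuting with `y`.

`comm_iff`: if `a, b` are commuting generators and `z` is in the parabolic subgroup of the other
generators, `a` commutes with `z b z⁻¹` only if `z` is a product of an element commuting letter by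
letter with `a` and one commuting letter by letter with `b`.
-/

namespace Unf.H15

open Art Pool.Agent.Helper38_Coxeter Unf.H7 Unf.H63

variable {S : Type} {M : CoxeterMatrix S}

lemma gram_nonpos {y u : S} (h : y ≠ u) : gram M y u ≤ 0 := by
  have hg : gram M y u = - Real.cos (Real.pi / M.M y u) := rfl
  rw [hg, neg_nonpos]
  have hpi := Real.pi_pos
  apply Real.cos_nonneg_of_neg_pi_div_two_le_of_le
  · have : 0 ≤ Real.pi / (M.M y u : ℝ) := by positivity
    linarith
  · rcases Nat.eq_zero_or_pos (M.M y u) with h0 | h0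
    · rw [h0]
      simp only [Nat.cast_zero, div_zero]
      positivity
    · have h1 : M.M y u ≠ 1 := M.off_diagonal y u h
      have h2 : (2 : ℝ) ≤ M.M y u := by
        have : 2 ≤ M.M y u := by omega
        exact_mod_cast this
      exact div_le_div_of_nonneg_left hpi.le (by norm_num) h2

lemma gram_neg {y u : S} (h : y ≠ u) (h2 : M.M y u ≠ 2) : gram M y u < 0 := by
  have hg : gram M y u = - Real.cos (Real.pi / M.M y u) := rfl
  rw [hg, neg_lt_zero]
  have hpi := Real.pi_pos
  apply Real.cos_pos_of_mem_Ioo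
  constructor
  · have : 0 ≤ Real.pi / (M.M y u : ℝ) := by positivity
    linarith
  · rcases Nat.eq_zero_or_pos (M.M y u) with h0 | h0
    · rw [h0]
      simp only [Nat.cast_zero, div_zero]
      positivity
    · have h1 : M.M y u ≠ 1 := M.off_diagonal y u h
      have h3 : (3 : ℝ) ≤ M.M y u := by
        have : 3 ≤ M.M y u := by omega
        exact_mod_cast this
      rw [div_lt_div_iff₀ (by linarith) (by norm_num)]
      nlinarith

lemma bil_sr (y : S) (v : S →₀ ℝ) : bil M (sr y) v = v.sum fun u c => c * gram M y u := by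
  simp [bil, sr, Finsupp.linearCombination_apply]

/-- A nonnegative vector orthogonal to `α_y`, without `α_y`, is supported in `y^⊥`. -/
lemma supp_perp_nn {y : S} {v : S →₀ ℝ} (hv : NN v) (hy : v y = 0) (h : bil M (sr y) v = 0) :
    ∀ u, M.M y u ≠ 2 → v u = 0 := by
  classical
  intro u hu
  by_cases huy : y = u
  · rw [← huy]; exact hy
  by_contra hne
  have hpos : 0 < v u := lt_of_le_of_ne (hv u) (Ne.symm hne)
  rw [bil_sr, Finsupp.sum] at h
  have h1 : ∀ i ∈ v.support, v i * gram M y i ≤ 0 := by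
    intro i hi
    have hyi : y ≠ i := by
      rintro rfl
      exact (Finsupp.mem_support_iff.1 hi) hy
    exact mul_nonpos_of_nonneg_of_nonpos (hv i) (gram_nonpos hyi)
  have h2 := (Finset.sum_eq_zero_iff_of_nonpos h1).1 h u (Finsupp.mem_support_iff.2 hne)
  have h3 : v u * gram M y u < 0 := mul_neg_of_pos_of_neg hpos (gram_neg huy hu)
  linarith

lemma supp_perp {cs : CoxeterSystem M M.Group} {y : S} {v : S →₀ ℝ} (hr : IsRoot cs v)
    (hy : v y = 0) (h : bil M (sr y) v = 0) : ∀ u, M.M y u ≠ 2 → v u = 0 := by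
  rcases hr.nn_or with h1 | h1
  · exact supp_perp_nn h1 hy h
  · intro u hu
    have := supp_perp_nn (M := M) (y := y) (v := -v) h1 (by simp [hy]) (by simp [h]) u hu
    simpa using this

variable {D : Set S} {q : Gp M →* M.Group}

lemma CData.one (C : CData M D q) (w : M.Group) : C.c 1 w = 1 := by
  have h := C.mul 1 1 w
  rw [map_one, mul_one, mul_one] at h
  exact (mul_eq_left.1 h.symm)

lemma CData.inv (C : CData M D q) (x : Gp M) (w : M.Group) :
    C.c x⁻¹ w = (C.c x (w * (q x)⁻¹))⁻¹ := by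
  have h := C.mul x x⁻¹ (w * (q x)⁻¹)
  rw [mul_inv_cancel, C.one, mul_assoc, inv_mul_cancel, mul_one] at h
  exact (inv_eq_of_mul_eq_one_right h.symm).symm

/-- Where the outputs are. -/
lemma CData.out (C : CData M D q) (hq : ∀ s, q (gen M s) = M.simple s) (U : Set S)
    (Ws : M.Group → Prop) (H : Subgroup (Gp M))
    (hW : ∀ w, Ws w → ∀ s ∈ U, Ws (w * M.simple s) ∧ C.c (gen M s) w ∈ H) :
    ∀ x ∈ P M U, ∀ w, Ws w → C.c x w ∈ H ∧ Ws (w * q x) ∧ Ws (w * (q x)⁻¹) := by
  intro x hx
  unfold P at hx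
  induction hx using Subgroup.closure_induction with
  | mem x hx =>
    obtain ⟨s, hs, rfl⟩ := hx
    intro w hw
    have h1 : (q (gen M s))⁻¹ = M.simple s := by
      rw [hq]
      have := M.toCoxeterSystem.inv_simple s
      rwa [CoxeterMatrix.toCoxeterSystem_simple] at this
    rw [h1, hq]
    exact ⟨(hW w hw s hs).2, (hW w hw s hs).1, (hW w hw s hs).1⟩
  | one =>
    intro w hw
    rw [C.one, map_one, inv_one, mul_one]
    exact ⟨H.one_mem, hw, hw⟩
  | mul x y _ _ ihx ihy =>
    intro w hw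
    have h1 := ihx w hw
    have h2 := ihy _ h1.2.1
    refine ⟨?_, ?_, ?_⟩
    · rw [C.mul]; exact H.mul_mem h1.1 h2.1
    · rw [map_mul, ← mul_assoc]; exact h2.2.1
    · rw [map_mul, mul_inv_rev, ← mul_assoc]
      exact (ihx _ (ihy w hw).2.2).2.2
  | inv x _ ih =>
    intro w hw
    have h1 := ih w hw
    refine ⟨?_, ?_, ?_⟩
    · rw [C.inv]
      exact H.inv_mem (ih _ h1.2.2).1
    · rw [map_inv]; exact h1.2.2
    · rw [map_inv, inv_inv]; exact h1.2.1

lemma min_one : Min M D 1 := by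
  intro t _
  rw [inv_one, Unf.H7.rho_one]
  exact NN_sr t

lemma CData.p_in (C : CData M D q) {w : M.Group} (hw : w ∈ WP M D) : C.p w = w := by
  have := C.dec.uniq w hw 1 min_one
  rwa [mul_one] at this

/-- The cocycle is the identity on the parabolic subgroup. -/
lemma CData.ident (C : CData M D q) (hq : ∀ s, q (gen M s) = M.simple s) :
    ∀ x ∈ P M D, ∀ w ∈ WP M D, C.c x w = x ∧ w * q x ∈ WP M D ∧ w * (q x)⁻¹ ∈ WP M D := by
  intro x hx
  unfold P at hx
  induction hx using Subgroup.closure_induction with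
  | mem x hx =>
    obtain ⟨s, hs, rfl⟩ := hx
    intro w hw
    have hsm : M.simple s ∈ WP M D := Subgroup.subset_closure ⟨s, hs, rfl⟩
    refine ⟨?_, ?_, ?_⟩
    · refine C.gen_some s w s hs ?_
      rw [C.p_in hw, inv_mul_cancel, Unf.H7.rho_one]
    · rw [hq]; exact Subgroup.mul_mem _ hw hsm
    · rw [hq]; exact Subgroup.mul_mem _ hw (Subgroup.inv_mem _ hsm)
  | one =>
    intro w hw
    rw [C.one, map_one, inv_one, mul_one]
    exact ⟨rfl, hw, hw⟩
  | mul x y _ _ ihx ihy =>
    intro w hw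
    have h1 := ihx w hw
    have h2 := ihy _ h1.2.1
    refine ⟨?_, ?_, ?_⟩
    · rw [C.mul, h1.1, h2.1]
    · rw [map_mul, ← mul_assoc]; exact h2.2.1
    · rw [map_mul, mul_inv_rev, ← mul_assoc]
      exact (ihx _ (ihy w hw).2.2).2.2
  | inv x _ ih =>
    intro w hw
    have h1 := ih w hw
    refine ⟨?_, ?_, ?_⟩
    · rw [C.inv, (ih _ h1.2.2).1]
    · rw [map_inv]; exact h1.2.2
    · rw [map_inv, inv_inv]; exact h1.2.1

/-- Letters outside `D` contribute nothing in the states of `W_D`. -/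
lemma CData.gen_out (C : CData M D q) {s : S} (hs : s ∉ D) {w : M.Group} (hw : w ∈ WP M D) :
    C.c (gen M s) w = 1 := by
  refine C.gen_none s w (fun t ht h => ?_)
  rw [C.p_in hw, inv_mul_cancel, Unf.H7.rho_one] at h
  exact hs (sr_inj h ▸ ht)

/-- Left invariance. -/
lemma CData.left (C : CData M D q) {a : M.Group} (ha : a ∈ WP M D) (x : Gp M) (w : M.Group) :
    C.c x (a * w) = C.c x w := by
  refine C.state x _ _ ?_
  have h1 : a * w = (a * C.p w) * ((C.p w)⁻¹ * w) := by group
  have h2 : C.p (a * w) = a * C.p w := by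
    conv_lhs => rw [h1]
    exact C.dec.uniq _ (Subgroup.mul_mem _ ha (C.dec.mem w)) _ (C.dec.min w)
  rw [h2]
  group

lemma q_mem (hq : ∀ s, q (gen M s) = M.simple s) (U : Set S) :
    ∀ x ∈ P M U, q x ∈ WP M U := by
  have h : P M U ≤ (WP M U).comap q := by
    unfold P
    rw [Subgroup.closure_le]
    rintro _ ⟨s, hs, rfl⟩
    show q (gen M s) ∈ WP M U
    rw [hq]
    exact Subgroup.subset_closure ⟨s, hs, rfl⟩
  exact fun x hx => h hx

/-- The outputs after the letter `y ∉ U`. -/
lemma CData.after (hC : ChrStmt) {U : Set S} {y : S} (hy : y ∉ U) (C : CData M U q)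
    (hq : ∀ s, q (gen M s) = M.simple s) :
    ∀ x ∈ P M U, C.c x (M.simple y) ∈ P M {s | s ∈ U ∧ M.M y s = 2} := by
  set V : Set S := {s | s ∈ U ∧ M.M y s = 2} with hV
  have hVU : ∀ v : S →₀ ℝ, SuppIn V v → SuppIn U v :=
    fun v hv s hs => hv s (fun h => hs h.1)
  -- the letter
  have key : ∀ (v : M.Group) (s t : S), v ∈ WP M U → s ∈ U → t ∈ U →
      C.p (M.simple y * v) ∈ WP M V →
      rho M.toCoxeterSystem ((C.p (M.simple y * v))⁻¹ * (M.simple y * v)) (sr s) = sr t →
      t ∈ V := by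
    intro v s t hv hs ht hp h
    set γ := rho M.toCoxeterSystem v (sr s) with hγ
    have hγU : SuppIn U γ := supp_rho hC hv (supp_sr hs)
    have h1 : rho M.toCoxeterSystem (M.simple y * v) (sr s) =
        rho M.toCoxeterSystem (C.p (M.simple y * v)) (sr t) := by
      rw [← h, ← Unf.H7.rho_mul]
      congr 2
      group
    have hpU : C.p (M.simple y * v) ∈ WP M U := C.dec.mem _
    have h2 : SuppIn U (rho M.toCoxeterSystem (M.simple y * v) (sr s)) := by
      rw [h1]; exact supp_rho hC hpU (supp_sr ht)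
    have h3 : rho M.toCoxeterSystem (M.simple y * v) (sr s) =
        γ - (2 * bil M (sr y) γ) • sr y := by
      rw [Unf.H7.rho_mul, rho_s, sig_apply]
    have h4 : bil M (sr y) γ = 0 := by
      have h5 := h2 y hy
      rw [h3, Finsupp.sub_apply, Finsupp.smul_apply, hγU y hy, smul_eq_mul] at h5
      have h6 : (sr y : S →₀ ℝ) y = 1 := by simp [sr]
      rw [h6] at h5
      linarith
    have h7 : rho M.toCoxeterSystem (M.simple y * v) (sr s) = γ := by
      rw [h3, h4]; simp
    have hroot : IsRoot M.toCoxeterSystem γ := (isRoot_sr s).rho v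
    have h8 : SuppIn V γ := by
      intro u hu
      by_cases huU : u ∈ U
      · exact supp_perp hroot (hγU y hy) h4 u (fun h2 => hu ⟨huU, h2⟩)
      · exact hγU u huU
    have h9 : rho M.toCoxeterSystem (C.p (M.simple y * v)) (sr t) = γ := by rw [← h1, h7]
    have h10 : SuppIn V (sr t) := by
      rw [← supp_rho_iff hC hp, h9]
      exact h8
    by_contra htV
    have h11 := h10 t htV
    simp [sr] at h11
  have hout := C.out hq U (fun w => ∃ v ∈ WP M U, w = M.simple y * v ∧ C.p w ∈ WP M V)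
    (P M V) (by
      rintro w ⟨v, hv, rfl, hp⟩ s hs
      have hvs : v * M.simple s ∈ WP M U :=
        Subgroup.mul_mem _ hv (Subgroup.subset_closure ⟨s, hs, rfl⟩)
      by_cases hex : ∃ t ∈ U, rho M.toCoxeterSystem
          ((C.p (M.simple y * v))⁻¹ * (M.simple y * v)) (sr s) = sr t
      · obtain ⟨t, ht, h⟩ := hex
        have htV := key v s t hv hs ht hp h
        have hcc : cc M U C.p (M.simple y * v) s = some ⟨t, ht⟩ := cc_some.2 h
        have hstep := (C.dec.some_step hcc).1
        refine ⟨⟨v * M.simple s, hvs, by rw [mul_assoc], ?_⟩, ?_⟩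
        · rw [hstep]
          exact Subgroup.mul_mem _ hp (Subgroup.subset_closure ⟨t, htV, rfl⟩)
        · rw [C.gen_some s _ t ht h]
          exact Subgroup.subset_closure ⟨t, htV, rfl⟩
      · push Not at hex
        have hcc : cc M U C.p (M.simple y * v) s = none := cc_none.2 (fun t => hex t.1 t.2)
        have hstep := (C.dec.none_step H75.deo hC hcc).1
        refine ⟨⟨v * M.simple s, hvs, by rw [mul_assoc], ?_⟩, ?_⟩
        · rw [hstep]; exact hp
        · rw [C.gen_none s _ hex]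
          exact Subgroup.one_mem _)
  intro x hx
  refine (hout x hx (M.simple y) ⟨1, Subgroup.one_mem _, by rw [mul_one], ?_⟩).1
  -- `p y = 1`
  have hmin : Min M U (M.simple y) := by
    intro t ht
    have hinv : (M.simple y)⁻¹ = M.simple y := by
      have := M.toCoxeterSystem.inv_simple y
      rwa [CoxeterMatrix.toCoxeterSystem_simple] at this
    rw [hinv, rho_s]
    exact NN_sig (cs := M.toCoxeterSystem) (isRoot_sr t) (NN_sr t) y
      (fun e => hy (sr_inj e ▸ ht))
  have h1 : C.p (1 * M.simple y) = 1 := C.dec.uniq 1 (Subgroup.one_mem _) _ hmin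
  rw [one_mul] at h1
  rw [h1]
  exact Subgroup.one_mem _

/-- If `x y = y x'` with `x, x' ∈ P_U`, `y ∉ U`, then `x` is in the parabolic subgroup of the
letters of `U` which commute with `y`. -/
theorem cent (M : CoxeterMatrix S) (hDec : DecStmt) (hC : ChrStmt) (hQ : QuoStmt) (U : Set S)
    (y : S) (hy : y ∉ U) (x x' : Gp M) (hx : x ∈ P M U) (hx' : x' ∈ P M U)
    (h : x * gen M y = gen M y * x') : x ∈ P M {s | s ∈ U ∧ M.M y s = 2} := by
  obtain ⟨q, hq⟩ := hQ M
  obtain ⟨C⟩ := cdata hDec H75.deo hC M U q hq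
  have h1 : C.c (x * gen M y) 1 = x := by
    have h2 := C.ident hq x hx 1 (Subgroup.one_mem _)
    rw [C.mul, h2.1, C.gen_out hy h2.2.1, mul_one]
  have h3 : C.c (gen M y * x') 1 = C.c x' (M.simple y) := by
    rw [C.mul, C.gen_out hy (Subgroup.one_mem _), one_mul, one_mul, hq]
  rw [← h1, h, h3]
  exact C.after hC hy hq x' hx'

lemma gen_ne_one (M : CoxeterMatrix S) (hQ : QuoStmt) (b : S) : gen M b ≠ 1 := by
  obtain ⟨q, hq⟩ := hQ M
  intro h
  have h1 := hq b
  rw [h, map_one] at h1
  have h2 : rho M.toCoxeterSystem (M.simple b) (sr b) = rho M.toCoxeterSystem 1 (sr b) := by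
    rw [← h1]
  rw [rho_s, Unf.H7.rho_one, sig_self] at h2
  have h3 := DFunLike.congr_fun h2 b
  simp [sr] at h3
  linarith

/-- A conjugate `z b z⁻¹` in the parabolic subgroup of `X`. -/
theorem conj_mem (M : CoxeterMatrix S) (hDec : DecStmt) (hC : ChrStmt) (hQ : QuoStmt) (b : S)
    (Z X : Set S) (hb : b ∉ Z) (z : Gp M) (hz : z ∈ P M Z) (hgX : z * gen M b * z⁻¹ ∈ P M X) :
    ∃ u ∈ P M {s | s ∈ Z ∧ s ∈ X}, ∃ v ∈ P M {s | s ∈ Z ∧ M.M b s = 2}, z = u * v := by
  obtain ⟨q, hq⟩ := hQ M
  obtain ⟨g, hg⟩ : ∃ g, g = z * gen M b * z⁻¹ := ⟨_, rfl⟩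
  rw [← hg] at hgX
  obtain ⟨C⟩ := cdata hDec H75.deo hC M X q hq
  -- the outputs of `z`
  have hpz : C.c z 1 ∈ P M {s | s ∈ Z ∧ s ∈ X} := by
    refine (C.out hq Z (fun w => w ∈ WP M Z) _ ?_ z hz 1 (Subgroup.one_mem _)).1
    intro w hw s hs
    refine ⟨Subgroup.mul_mem _ hw (Subgroup.subset_closure ⟨s, hs, rfl⟩), ?_⟩
    by_cases hex : ∃ t ∈ X, rho M.toCoxeterSystem ((C.p w)⁻¹ * w) (sr s) = sr t
    · obtain ⟨t, ht, he⟩ := hex
      rw [C.gen_some s w t ht he]
      refine Subgroup.subset_closure ⟨t, ⟨?_, ht⟩, rfl⟩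
      have h1 : (C.p w)⁻¹ * w ∈ WP M Z :=
        Subgroup.mul_mem _ (Subgroup.inv_mem _ (C.dec.sub Z w hw)) hw
      have h2 : SuppIn Z (sr t) := by
        rw [← he]
        exact supp_rho hC h1 (supp_sr hs)
      by_contra hcon
      have h3 := h2 t hcon
      simp [sr] at h3
    · push Not at hex
      rw [C.gen_none s w hex]
      exact Subgroup.one_mem _
  obtain ⟨u, hu⟩ : ∃ u, u = C.c z 1 := ⟨_, rfl⟩
  rw [← hu] at hpz
  -- the two computations
  have e1 : C.c (g * z) 1 = g * u := by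
    have h2 := C.ident hq g hgX 1 (Subgroup.one_mem _)
    have h3 : q g ∈ WP M X := q_mem hq X g hgX
    rw [C.mul, h2.1]
    have h4 : C.c z (1 * q g) = C.c z 1 := by
      have := C.left h3 z 1
      rw [mul_one] at this
      rw [one_mul, this]
    rw [h4, hu]
  have e2 : C.c (z * gen M b) 1 = u ∨ C.c (z * gen M b) 1 = u * gen M b := by
    rw [C.mul, ← hu, one_mul]
    have hqz : q z ∈ WP M Z := q_mem hq Z z hz
    by_cases hex : ∃ t ∈ X, rho M.toCoxeterSystem ((C.p (q z))⁻¹ * q z) (sr b) = sr t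
    · obtain ⟨t, ht, he⟩ := hex
      right
      rw [C.gen_some b _ t ht he]
      have h1 : (C.p (q z))⁻¹ * q z ∈ WP M Z :=
        Subgroup.mul_mem _ (Subgroup.inv_mem _ (C.dec.sub Z _ hqz)) hqz
      have h2 := (hC M Z _).1 h1 (sr b) b hb
      rw [he, Finsupp.sub_apply, sub_eq_zero] at h2
      have htb : t = b := by
        by_contra hcon
        simp [sr, Finsupp.single_apply, hcon] at h2
      rw [htb]
    · push Not at hex
      left
      rw [C.gen_none b _ hex, mul_one]
  have e0 : g * z = z * gen M b := by rw [hg]; group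
  rw [e0] at e1
  rcases e2 with e2 | e2
  · exfalso
    have h1 : g * u = u := e1.symm.trans e2
    have h2 : g = 1 := mul_eq_right.1 h1
    rw [hg] at h2
    apply gen_ne_one M hQ b
    have h3 : gen M b = z⁻¹ * (z * gen M b * z⁻¹) * z := by group
    rw [h3, h2]
    group
  · have h1 : g * u = u * gen M b := e1.symm.trans e2
    have hS2 : P M {s | s ∈ Z ∧ s ∈ X} ≤ P M Z := by
      apply Subgroup.closure_mono
      exact Set.image_mono (fun s hs => hs.1)
    have hv0 : u⁻¹ * z ∈ P M Z :=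
      Subgroup.mul_mem _ (Subgroup.inv_mem _ (hS2 hpz)) hz
    have h2 : (u⁻¹ * z) * gen M b = gen M b * (u⁻¹ * z) := by
      have h3 : z * gen M b = u * gen M b * u⁻¹ * z := by
        rw [← h1, ← e0]; group
      calc (u⁻¹ * z) * gen M b = u⁻¹ * (z * gen M b) := by group
        _ = u⁻¹ * (u * gen M b * u⁻¹ * z) := by rw [h3]
        _ = gen M b * (u⁻¹ * z) := by group
    have h3 := cent M hDec hC hQ Z b hb _ _ hv0 hv0 h2
    exact ⟨u, hpz, u⁻¹ * z, h3, by group⟩

/-- Commuting conjugates of generators. -/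
theorem comm_conj (M : CoxeterMatrix S) (hDec : DecStmt) (hC : ChrStmt) (hQ : QuoStmt) (a b : S)
    (Z : Set S) (ha : a ∉ Z) (hb : b ∉ Z) (hab : a ≠ b) (z : Gp M) (hz : z ∈ P M Z)
    (h : gen M a * (z * gen M b * z⁻¹) = (z * gen M b * z⁻¹) * gen M a) :
    ∃ u ∈ P M {s | s ∈ Z ∧ M.M a s = 2}, ∃ v ∈ P M {s | s ∈ Z ∧ M.M b s = 2}, z = u * v := by
  have hSU : P M Z ≤ P M (insert b Z) := by
    apply Subgroup.closure_mono
    exact Set.image_mono (Set.subset_insert b Z)
  have hgU : z * gen M b * z⁻¹ ∈ P M (insert b Z) :=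
    Subgroup.mul_mem _ (Subgroup.mul_mem _ (hSU hz)
      (Subgroup.subset_closure ⟨b, Set.mem_insert b Z, rfl⟩)) (Subgroup.inv_mem _ (hSU hz))
  have haU : a ∉ insert b Z := by
    intro hcon
    rcases hcon with hcon | hcon
    · exact hab hcon
    · exact ha hcon
  have hgX := cent M hDec hC hQ (insert b Z) a haU _ _ hgU hgU h.symm
  obtain ⟨u, hu, v, hv, huv⟩ := conj_mem M hDec hC hQ b Z _ hb z hz hgX
  refine ⟨u, ?_, v, hv, huv⟩
  have h1 : P M {s | s ∈ Z ∧ s ∈ {s | s ∈ insert b Z ∧ M.M a s = 2}} ≤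
      P M {s | s ∈ Z ∧ M.M a s = 2} := by
    apply Subgroup.closure_mono
    exact Set.image_mono (fun s hs => ⟨hs.1, hs.2.2⟩)
  exact h1 hu

end Unf.H15
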