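import Pool.Agent.Helper12_UNF.Stmts
import Pool.Agent.Helper58_UNF.Chr
import Pool.Agent.Helper75_UNF.Deo
import Pool.Agent.Helper7_UNF.Prj
import Pool.Agent.Helper63_UNF.Coc

set_option autoImplicit false

/-!
# The set retraction of an Artin group onto a standard parabolic subgroup (MP_61f49c_al)

`cbraid` is the braid relation for the letters `cc` of the parabolic projection (proof of helper7,
module PRJ, extracted here).  `cocyc` is the cocycle with values in the Artin group itself.
-/

namespace Unf.H15

open Art Pool.Agent.Helper38_Coxeter Unf.H7 Unf.H63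

variable {S : Type}

theorem cbraid (hO : DeoStmt) (hC : ChrStmt) {M : CoxeterMatrix S} {D : Set S}
    {p : M.Group → M.Group} (hd : Dec M D p) (w : M.Group) (s t : S) (hst : s ≠ t)
    (hm : M.M s t ≠ 0) :
    ((List.range (M.M s t)).map (fun k => (cc M D p (w * (alt k (M.simple s) (M.simple t)))
        (if Even k then s else t)).elim (1 : Gp (res M D)) (gen (res M D)))).prod =
    ((List.range (M.M s t)).map (fun k => (cc M D p (w * (alt k (M.simple t) (M.simple s)))
        (if Even k then t else s)).elim (1 : Gp (res M D)) (gen (res M D)))).prod := by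
  have hm' : M.M t s = M.M s t := M.symmetric t s
  by_cases hall : SuppIn D (rho M.toCoxeterSystem w (sr s)) ∧
      SuppIn D (rho M.toCoxeterSystem w (sr t))
  · obtain ⟨hs, ht⟩ := hall
    have g1 : ∃ t1 : D, cc M D p w s = some t1 := by
      rcases hc : cc M D p w s with _ | t1
      · exact absurd hs ((hd.none_iff hO hC).1 hc)
      · exact ⟨t1, rfl⟩
    have g2 : ∃ t2 : D, cc M D p w t = some t2 := by
      rcases hc : cc M D p w t with _ | t2
      · exact absurd ht ((hd.none_iff hO hC).1 hc)
      · exact ⟨t2, rfl⟩
    obtain ⟨t1, g1⟩ := g1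
    obtain ⟨t2, g2⟩ := g2
    rw [cc_some] at g1 g2
    rw [hd.all_side g1 g2, hd.all_side g2 g1]
    have hne : t1.1 ≠ t2.1 := by
      intro e
      rw [e, ← g2] at g1
      exact hst (sr_inj ((rho M.toCoxeterSystem ((p w)⁻¹ * w)).injective g1))
    have hg : gram M t1.1 t2.1 = gram M s t := by
      rw [← bil_sr_sr, ← bil_sr_sr, ← g1, ← g2, bil_rho]
    have hl := label_eq hst hm hg hne
    have := relHolds (res M D) t1 t2 (by rw [res_apply, hl]; exact hm)
    rw [res_apply, hl] at this
    exact this
  · -- at most one wall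
    have hP : ∀ k l, k < M.M s t → l < M.M s t →
        SuppIn D (rho M.toCoxeterSystem (w * alt k (M.simple s) (M.simple t))
          (sr (if Even k then s else t))) →
        SuppIn D (rho M.toCoxeterSystem (w * alt l (M.simple s) (M.simple t))
          (sr (if Even l then s else t))) → k = l := by
      intro k l hk hl h1 h2
      by_contra hne
      rcases Nat.lt_or_gt_of_ne hne with hlt | hlt
      · exact hall (two_aux hst hm hlt hl w h1 h2)
      · exact hall (two_aux hst hm hlt hk w h2 h1)
    have hsw : ∀ k j, k + j + 1 = M.M s t →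
        rho M.toCoxeterSystem (w * alt k (M.simple s) (M.simple t))
          (sr (if Even k then s else t)) =
        rho M.toCoxeterSystem (w * alt j (M.simple t) (M.simple s))
          (sr (if Even j then t else s)) := by
      intro k j hkj
      rw [Unf.H7.rho_mul, Unf.H7.rho_mul, root_swap hst hm hkj]
    by_cases hex : ∃ k, k < M.M s t ∧
        SuppIn D (rho M.toCoxeterSystem (w * alt k (M.simple s) (M.simple t))
          (sr (if Even k then s else t)))
    · obtain ⟨k, hk, hkD⟩ := hex
      obtain ⟨j, hj⟩ : ∃ j, k + j + 1 = M.M s t := ⟨M.M s t - 1 - k, by omega⟩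
      have L1 : ∀ i, i < M.M s t → i ≠ k →
          ¬ SuppIn D (rho M.toCoxeterSystem (w * alt i (M.simple s) (M.simple t))
            (sr (if Even i then s else t))) := fun i hi hik h => hik (hP i k hi hk h hkD)
      have L2 : ∀ i, i < M.M t s → i ≠ j →
          ¬ SuppIn D (rho M.toCoxeterSystem (w * alt i (M.simple t) (M.simple s))
            (sr (if Even i then t else s))) := by
        intro i hi hij h
        rw [← hsw (M.M s t - 1 - i) i (by omega)] at h
        have := hP _ k (by omega) hk h hkD
        omega
      -- the letter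
      have hc : ∃ t' : D, rho M.toCoxeterSystem (p w)⁻¹ (rho M.toCoxeterSystem
          (w * alt k (M.simple s) (M.simple t)) (sr (if Even k then s else t))) = sr t'.1 := by
        have h2 : p (w * alt k (M.simple s) (M.simple t)) = p w :=
          hd.const hO hC (fun i hi => (hd.none_iff hO hC).2 (L1 i (by omega) (by omega)))
        rcases hc : cc M D p (w * alt k (M.simple s) (M.simple t)) (if Even k then s else t) with
          _ | t'
        · exact absurd hkD ((hd.none_iff hO hC).1 hc)
        · refine ⟨t', ?_⟩
          have := cc_some.1 hc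
          rw [h2, Unf.H7.rho_mul] at this
          exact this
      obtain ⟨t', ht'⟩ := hc
      rw [hd.one_side hO hC hk L1 ht']
      rw [hsw k j hj] at ht'
      have := hd.one_side hO hC (s := t) (t := s) (k := j) (by omega) L2 ht'
      rw [hm'] at this
      exact this.symm
    · push Not at hex
      rw [prod_one, prod_one]
      · intro k hk
        have h1 : cc M D p (w * alt k (M.simple t) (M.simple s)) (if Even k then t else s) =
            none := by
          rw [hd.none_iff hO hC, ← hsw (M.M s t - 1 - k) k (by omega)]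
          exact hex _ (by omega)
        simp only [h1, Option.elim]
      · intro k hk
        have h1 : cc M D p (w * alt k (M.simple s) (M.simple t)) (if Even k then s else t) =
            none := by
          rw [hd.none_iff hO hC]
          exact hex _ hk
        simp only [h1, Option.elim]

/-- The letter contributed by `s` in the state `w`. -/
structure CData (M : CoxeterMatrix S) (D : Set S) (q : Gp M →* M.Group) where
  p : M.Group → M.Group
  dec : Dec M D p
  c : Gp M → M.Group → Gp M
  mul : ∀ x y w, c (x * y) w = c x w * c y (w * q x)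
  gen_some : ∀ s w, ∀ t ∈ D, rho M.toCoxeterSystem ((p w)⁻¹ * w) (sr s) = sr t →
    c (gen M s) w = gen M t
  gen_none : ∀ s w, (∀ t ∈ D, rho M.toCoxeterSystem ((p w)⁻¹ * w) (sr s) ≠ sr t) →
    c (gen M s) w = 1
  state : ∀ x w w', (p w)⁻¹ * w = (p w')⁻¹ * w' → c x w = c x w'

theorem cdata (hDec : DecStmt) (hO : DeoStmt) (hC : ChrStmt) (M : CoxeterMatrix S) (D : Set S)
    (q : Gp M →* M.Group) (hq : ∀ s, q (gen M s) = M.simple s) : Nonempty (CData M D q) := by
  obtain ⟨p, q1, q2, q3, q4⟩ := hDec M D
  have hd : Dec M D p := ⟨q1, q2, q3, q4⟩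
  let e : M.Group → S → Gp (res M D) := fun w s => (cc M D p w s).elim 1 (gen (res M D))
  let g : S → K M.Group (Gp (res M D)) := fun s => ⟨fun w => e w s, M.simple s⟩
  have hgu : ∀ s, (g s).u = M.simple s := fun s => rfl
  have hgf : ∀ s w, (g s).f w = e w s := fun s w => rfl
  have hrel : ∀ s t, M.M s t ≠ 0 →
      alt (M.M s t) (M.simple s) (M.simple t) = alt (M.M s t) (M.simple t) (M.simple s) := by
    intro s t h
    have h1 := congrArg q (relHolds M s t h)
    rwa [map_alt, map_alt, hq, hq] at h1
  have hif : ∀ (P : Prop) [Decidable P] (s t : S) (w : M.Group),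
      (if P then g s else g t).f w = e w (if P then s else t) := by
    intro P _ s t w
    split_ifs <;> rfl
  obtain ⟨θ, hθ⟩ := lift M g (by
    intro s t h
    by_cases hst : s = t
    · rw [hst]
    ext w
    · rw [K.alt_f, K.alt_f]
      simp only [hgu, hif]
      exact cbraid hO hC hd w s t hst h
    · rw [K.alt_u, K.alt_u, hgu, hgu, hrel s t h])
  have hθu : ∀ x, (θ x).u = q x := by
    have h1 : K.pr.comp θ = q := by
      apply ext M
      intro s
      show (θ (gen M s)).u = q (gen M s)
      rw [hθ, hq]
    intro x
    rw [← h1]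
    rfl
  have hco : ∀ x y w, (θ (x * y)).f w = (θ x).f w * (θ y).f (w * q x) := by
    intro x y w
    rw [map_mul, K.mul_f, hθu]
  have hgen : ∀ s w, (θ (gen M s)).f w = e w s := by
    intro s w
    rw [hθ]
  obtain ⟨Φ, hΦ⟩ := inc M D
  refine ⟨⟨p, hd, fun x w => Φ ((θ x).f w), ?_, ?_, ?_, ?_⟩⟩
  · intro x y w
    show Φ ((θ (x * y)).f w) = _
    rw [hco, map_mul]
  · intro s w t ht h
    show Φ ((θ (gen M s)).f w) = _
    rw [hgen]
    have h1 : cc M D p w s = some ⟨t, ht⟩ := cc_some.2 h
    show Φ ((cc M D p w s).elim 1 (gen (res M D))) = _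
    rw [h1]
    exact hΦ ⟨t, ht⟩
  · intro s w h
    show Φ ((θ (gen M s)).f w) = _
    rw [hgen]
    have h1 : cc M D p w s = none := cc_none.2 (fun t => h t.1 t.2)
    show Φ ((cc M D p w s).elim 1 (gen (res M D))) = _
    rw [h1]
    exact map_one Φ
  · have hpm : ∀ (w w' v : M.Group), (p w)⁻¹ * w = (p w')⁻¹ * w' →
        (p (w * v))⁻¹ * (w * v) = (p (w' * v))⁻¹ * (w' * v) := by
      intro w w' v h
      have h1 : w * v = (p w * (p w')⁻¹) * (w' * v) := by
        have : w = p w * ((p w')⁻¹ * w') := by rw [← h]; group
        conv_lhs => rw [this]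
        group
      have h2 : p (w * v) = (p w * (p w')⁻¹) * p (w' * v) := by
        have h3 : w * v = ((p w * (p w')⁻¹) * p (w' * v)) * ((p (w' * v))⁻¹ * (w' * v)) := by
          rw [h1]; group
        rw [h3]
        refine hd.uniq _ ?_ _ (hd.min _)
        exact Subgroup.mul_mem _ (Subgroup.mul_mem _ (hd.mem _) (Subgroup.inv_mem _ (hd.mem _)))
          (hd.mem _)
      rw [h2, h1]
      group
    have key : ∀ x ∈ Subgroup.closure (Set.range (gen M)), ∀ w w',
        (p w)⁻¹ * w = (p w')⁻¹ * w' → (θ x).f w = (θ x).f w' := by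
      intro x hx
      induction hx using Subgroup.closure_induction with
      | mem x hx =>
        obtain ⟨s, rfl⟩ := hx
        intro w w' h
        rw [hgen, hgen]
        show (cc M D p w s).elim 1 (gen (res M D)) = (cc M D p w' s).elim 1 (gen (res M D))
        rw [cc_eq h]
      | one =>
        intro w w' _
        simp [K.one_f]
      | mul x y _ _ ihx ihy =>
        intro w w' h
        rw [hco, hco, ihx w w' h, ihy _ _ (hpm w w' (q x) h)]
      | inv x _ ih =>
        intro w w' h
        have h1 : ∀ w, (θ x⁻¹).f w = ((θ x).f (w * (q x)⁻¹))⁻¹ := by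
          intro w
          rw [map_inv, K.inv_f, hθu]
        rw [h1, h1, ih _ _ (hpm w w' (q x)⁻¹ h)]
    intro x w w' h
    show Φ ((θ x).f w) = Φ ((θ x).f w')
    rw [key x (by rw [closure_gen]; trivial) w w' h]

end Unf.H15
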