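import Pool.Agent.Helper12_UNF.All2
import Pool.Agent.Helper15_RES.Cent

set_option autoImplicit false

/-!
# Residual finiteness of Artin groups reduces to matrices without infinite labels (MP_61f49c_al)

`extT M U k`: the Coxeter matrix `M` with additional generators `t ∈ T` which commute with each
other, commute with the old generators in `U t` and have the label `k` with the other old ones.
-/

namespace Unf.H15

open Art Pool.Agent.Helper38_Coxeter

section ext

variable {S T : Type}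

open Classical in
/-- Additional commuting generators. -/
noncomputable def extT (M : CoxeterMatrix S) (U : T → Set S) (k : ℕ) (hk : k ≠ 1) :
    CoxeterMatrix (S ⊕ T) where
  M := Matrix.of fun a b => match a, b with
    | .inl s, .inl t => M.M s t
    | .inl s, .inr t => if s ∈ U t then 2 else k
    | .inr t, .inl s => if s ∈ U t then 2 else k
    | .inr t, .inr t' => if t = t' then 1 else 2
  isSymm := by
    ext a b
    rcases a with a | a <;> rcases b with b | b
    · exact M.symmetric b a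
    · rfl
    · rfl
    · show (if b = a then 1 else 2) = (if a = b then 1 else 2)
      by_cases h : a = b
      · rw [if_pos h, if_pos h.symm]
      · rw [if_neg h, if_neg (fun e => h e.symm)]
  diagonal a := by
    rcases a with a | a
    · exact M.diagonal a
    · show (if a = a then 1 else 2) = 1
      rw [if_pos rfl]
  off_diagonal a b h := by
    rcases a with a | a <;> rcases b with b | b
    · exact M.off_diagonal a b (fun h' => h (by rw [h']))
    · show (if a ∈ U b then 2 else k) ≠ 1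
      split_ifs
      · norm_num
      · exact hk
    · show (if b ∈ U a then 2 else k) ≠ 1
      split_ifs
      · norm_num
      · exact hk
    · show (if a = b then 1 else 2) ≠ 1
      rw [if_neg (fun h' => h (by rw [h']))]
      norm_num

variable (M : CoxeterMatrix S) (U : T → Set S) (k : ℕ) (hk : k ≠ 1)

lemma ext_ll (s t : S) : (extT M U k hk).M (.inl s) (.inl t) = M.M s t := rfl

lemma ext_rl_mem {s : S} {t : T} (h : s ∈ U t) : (extT M U k hk).M (.inr t) (.inl s) = 2 := by
  classical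
  show (if s ∈ U t then 2 else k) = 2
  rw [if_pos h]

lemma ext_rl_not {s : S} {t : T} (h : s ∉ U t) : (extT M U k hk).M (.inr t) (.inl s) = k := by
  classical
  show (if s ∈ U t then 2 else k) = k
  rw [if_neg h]

lemma ext_rr {t t' : T} (h : t ≠ t') : (extT M U k hk).M (.inr t) (.inr t') = 2 := by
  classical
  show (if t = t' then 1 else 2) = 2
  rw [if_neg h]

/-- The new generator commutes with the generators in `U t`. -/
theorem ext_comm (s : S) (t : T) (h : s ∈ U t) :
    Commute (gen (extT M U k hk) (.inr t)) (gen (extT M U k hk) (.inl s)) := by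
  have h1 := relHolds (extT M U k hk) (.inr t) (.inl s)
    (by rw [ext_rl_mem M U k hk h]; norm_num)
  rw [ext_rl_mem M U k hk h, alt_two, alt_two] at h1
  exact h1

theorem ext_comm' (t t' : T) (h : t ≠ t') :
    Commute (gen (extT M U k hk) (.inr t)) (gen (extT M U k hk) (.inr t')) := by
  have h1 := relHolds (extT M U k hk) (.inr t) (.inr t') (by rw [ext_rr M U k hk h]; norm_num)
  rw [ext_rr M U k hk h, alt_two, alt_two] at h1
  exact h1

/-- The inclusion. -/
theorem ext_incl : ∃ ι : Gp M →* Gp (extT M U k hk),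
    ∀ s, ι (gen M s) = gen (extT M U k hk) (.inl s) :=
  lift M (fun s => gen (extT M U k hk) (.inl s))
    (fun s t h => relHolds (extT M U k hk) (.inl s) (.inl t) h)

end ext

/-- The data of the inclusion used below. -/
structure Inc (S T : Type) (M : CoxeterMatrix S) (U : T → Set S) (k : ℕ) (hk : k ≠ 1) where
  ι : Gp M →* Gp (extT M U k hk)
  hι : ∀ s, ι (gen M s) = gen (extT M U k hk) (.inl s)
  inj : ∀ a, ι a = 1 → a = 1
  lft : ∀ C' : Set S, ∀ z ∈ P (extT M U k hk) (Sum.inl '' C'), ∃ a ∈ P M C', ι a = z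
  img : ∀ C' : Set S, ∀ a ∈ P M C', ι a ∈ P (extT M U k hk) (Sum.inl '' C')

theorem inc_data {S T : Type} [Finite S] [Finite T] (M : CoxeterMatrix S) (U : T → Set S)
    (k : ℕ) (hk : k ≠ 1) : Nonempty (Inc S T M U k hk) := by
  obtain ⟨ι, hι⟩ := ext_incl M U k hk
  obtain ⟨h1, h2, h3⟩ := H81.inj allVdl M (extT M U k hk) ι Set.univ (fun s => .inl s)
    (fun s _ => hι s) (fun s _ t _ hst => ⟨fun h => hst (Sum.inl_injective h), rfl⟩)
  refine ⟨⟨ι, hι, ?_, ?_, ?_⟩⟩
  · intro a ha
    refine h1 a ?_ ha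
    have : P M Set.univ = ⊤ := by
      unfold P
      rw [Set.image_univ]
      exact closure_gen M
    rw [this]
    trivial
  · intro C' z hz
    exact h2 C' (Set.subset_univ _) z hz
  · intro C' a ha
    exact h3 C' (Set.subset_univ _) a ha

section closed

variable {S T : Type} [Finite S] [Finite T] (M : CoxeterMatrix S) (U : T → Set S) (k : ℕ)
  (hk : k ≠ 1) (hk2 : k ≠ 2)

include hk2 in
omit [Finite S] [Finite T] in
lemma perp_eq (t : T) : {a | a ∈ Set.range (Sum.inl : S → S ⊕ T) ∧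
    (extT M U k hk).M (.inr t) a = 2} = Sum.inl '' (U t) := by
  ext a
  constructor
  · rintro ⟨⟨s, rfl⟩, h⟩
    refine ⟨s, ?_, rfl⟩
    by_contra hs
    rw [ext_rl_not M U k hk hs] at h
    exact hk2 h
  · rintro ⟨s, hs, rfl⟩
    exact ⟨⟨s, rfl⟩, ext_rl_mem M U k hk hs⟩

omit [Finite S] [Finite T] in
/-- From a nontrivial element to a normal subgroup of finite index of `Gp M`. -/
theorem sep (I : Inc S T M U k hk) (hRF : RF (Gp (extT M U k hk))) (w : Gp (extT M U k hk))
    (hw : w ≠ 1) : ∃ N : Subgroup (Gp M), N.Normal ∧ N.FiniteIndex ∧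
      ∃ H : Subgroup (Gp (extT M U k hk)), H.Normal ∧ w ∉ H ∧ ∀ n ∈ N, I.ι n ∈ H := by
  obtain ⟨H, hH⟩ := Group.exists_finiteIndexNormalSubgroup_notMem _ hw
  have hfi : (H.toSubgroup.comap I.ι).FiniteIndex :=
    (FiniteIndexNormalSubgroup.comap I.ι H).isFiniteIndex'
  exact ⟨H.toSubgroup.comap I.ι, inferInstance, hfi, H.toSubgroup, inferInstance, hH,
    fun n hn => hn⟩

include hk2 in
/-- The centralizer of the new generator: `P_U` is closed. -/
theorem closed_single (t : T) (hRF : RF (Gp (extT M U k hk))) (z : Gp M) (hz : z ∉ P M (U t)) :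
    ∃ N : Subgroup (Gp M), N.Normal ∧ N.FiniteIndex ∧ ∀ u ∈ P M (U t), ∀ n ∈ N, z ≠ u * n := by
  obtain ⟨I⟩ := inc_data M U k hk
  obtain ⟨a, ha⟩ : ∃ a, a = gen (extT M U k hk) (.inr t) := ⟨_, rfl⟩
  have hcomm : ∀ u ∈ P M (U t), Commute a (I.ι u) := by
    apply H63.comm_P M (U t) I.ι a
    intro s hs
    rw [ha, I.hι]
    exact ext_comm M U k hk s t hs
  have hne : I.ι z * a * (a * I.ι z)⁻¹ ≠ 1 := by
    intro h
    rw [mul_inv_eq_one, ha] at h
    have hzr : I.ι z ∈ P (extT M U k hk) (Set.range Sum.inl) := by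
      have := I.img Set.univ z (by
        have : P M Set.univ = ⊤ := by
          unfold P
          rw [Set.image_univ]
          exact closure_gen M
        rw [this]; trivial)
      rwa [Set.image_univ] at this
    have h1 := cent (extT M U k hk) H58.dec H58.chr quo (Set.range Sum.inl) (.inr t)
      (by rintro ⟨s, hs⟩; cases hs) (I.ι z) (I.ι z) hzr hzr h
    rw [perp_eq M U k hk hk2 t] at h1
    obtain ⟨z', hz', he⟩ := I.lft (U t) _ h1
    have h2 : z' * z⁻¹ = 1 := I.inj _ (by rw [map_mul, map_inv, he, mul_inv_cancel])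
    rw [mul_inv_eq_one] at h2
    exact hz (h2 ▸ hz')
  obtain ⟨N, hN1, hN2, H, hH, hwH, hNH⟩ := sep M U k hk I hRF _ hne
  refine ⟨N, hN1, hN2, ?_⟩
  intro u hu n hn hzz
  apply hwH
  rw [← QuotientGroup.eq_one_iff]
  have hn2 : ((I.ι n : Gp (extT M U k hk)) : Gp (extT M U k hk) ⧸ H) = 1 :=
    (QuotientGroup.eq_one_iff _).2 (hNH n hn)
  have e1 : I.ι u * a * (a * I.ι u)⁻¹ = 1 := by
    rw [mul_inv_eq_one]
    exact (hcomm u hu).symm.eq
  have e3 : ((I.ι z * a * (a * I.ι z)⁻¹ : Gp (extT M U k hk)) : Gp (extT M U k hk) ⧸ H) =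
      ((I.ι u * a * (a * I.ι u)⁻¹ : Gp (extT M U k hk)) : Gp (extT M U k hk) ⧸ H) := by
    rw [hzz, map_mul I.ι u n]
    simp only [QuotientGroup.mk_mul, QuotientGroup.mk_inv, hn2, mul_one]
  rw [e3, e1]
  rfl

include hk2 in
/-- The product is closed as soon as one parabolic subgroup of the extension is. -/
theorem closed_of_para (t : T) (X : Set S)
    (hcl : ∀ g : Gp (extT M U k hk), g ∉ P (extT M U k hk) (Sum.inl '' X ∪ {.inr t}) →
      ∃ N : Subgroup (Gp (extT M U k hk)), N.Normal ∧ N.FiniteIndex ∧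
        ∀ u ∈ P (extT M U k hk) (Sum.inl '' X ∪ {.inr t}), ∀ n ∈ N, g ≠ u * n) :
    ClosedMul (P M X) (P M (U t)) := by
  intro z hz
  obtain ⟨I⟩ := inc_data M U k hk
  obtain ⟨b, hb⟩ : ∃ b, b = gen (extT M U k hk) (.inr t) := ⟨_, rfl⟩
  obtain ⟨Y, hY⟩ : ∃ Y : Set (S ⊕ T), Y = Sum.inl '' X ∪ {.inr t} := ⟨_, rfl⟩
  rw [← hY] at hcl
  have hbY : b ∈ P (extT M U k hk) Y := by
    rw [hb]
    exact Subgroup.subset_closure ⟨.inr t, by rw [hY]; exact Or.inr rfl, rfl⟩
  have hXY : ∀ u ∈ P M X, I.ι u ∈ P (extT M U k hk) Y := by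
    intro u hu
    have h1 := I.img X u hu
    have h2 : P (extT M U k hk) (Sum.inl '' X) ≤ P (extT M U k hk) Y := by
      apply Subgroup.closure_mono
      apply Set.image_mono
      rw [hY]
      exact Set.subset_union_left
    exact h2 h1
  have hq : ∀ u ∈ P M (U t), Commute b (I.ι u) := by
    apply H63.comm_P M (U t) I.ι b
    intro s hs
    rw [hb, I.hι]
    exact ext_comm M U k hk s t hs
  have hne : I.ι z * b * (I.ι z)⁻¹ ∉ P (extT M U k hk) Y := by
    intro h
    rw [hb] at h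
    have hzr : I.ι z ∈ P (extT M U k hk) (Set.range Sum.inl) := by
      have := I.img Set.univ z (by
        have : P M Set.univ = ⊤ := by
          unfold P
          rw [Set.image_univ]
          exact closure_gen M
        rw [this]; trivial)
      rwa [Set.image_univ] at this
    obtain ⟨u, hu, v, hv, huv⟩ := conj_mem (extT M U k hk) H58.dec H58.chr quo (.inr t)
      (Set.range Sum.inl) Y (by rintro ⟨s, hs⟩; cases hs) (I.ι z) hzr h
    have hs1 : {s | s ∈ Set.range (Sum.inl : S → S ⊕ T) ∧ s ∈ Y} ⊆ Sum.inl '' X := by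
      rintro a ⟨⟨s, rfl⟩, h2⟩
      rw [hY] at h2
      rcases h2 with h2 | h2
      · exact h2
      · exact absurd h2 (by intro hcon; cases hcon)
    have hu2 : u ∈ P (extT M U k hk) (Sum.inl '' X) :=
      (Subgroup.closure_mono (Set.image_mono hs1)) hu
    rw [perp_eq M U k hk hk2 t] at hv
    obtain ⟨u', hu', heu⟩ := I.lft X _ hu2
    obtain ⟨v', hv', hev⟩ := I.lft (U t) _ hv
    refine hz u' hu' v' hv' ?_
    have h2 : z * (u' * v')⁻¹ = 1 := I.inj _ (by
      rw [map_mul, map_inv, map_mul, heu, hev, ← huv, mul_inv_cancel])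
    exact mul_inv_eq_one.1 h2
  obtain ⟨N, hN1, hN2, hN⟩ := hcl _ hne
  have hfi : (N.comap I.ι).FiniteIndex := ⟨by
    rw [Subgroup.index_comap]
    intro h0
    have h1 := Subgroup.relIndex_dvd_index_of_normal N I.ι.range
    rw [h0, zero_dvd_iff] at h1
    exact hN2.index_ne_zero h1⟩
  refine ⟨N.comap I.ι, inferInstance, hfi, ?_⟩
  intro u hu v hv n hn hzz
  have hn' : I.ι n ∈ N := hn
  have hv' : I.ι v * b * (I.ι v)⁻¹ = b := by
    rw [← (hq v hv).eq]
    group
  have e2 : I.ι z * b * (I.ι z)⁻¹ =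
      (I.ι u * b * (I.ι u)⁻¹) * ((I.ι u * I.ι v) * ((b⁻¹ * I.ι n * b) * (I.ι n)⁻¹) *
        (I.ι u * I.ι v)⁻¹) := by
    have e3 : I.ι u * b * (I.ι u)⁻¹ = (I.ι u * I.ι v) * b * (I.ι u * I.ι v)⁻¹ := by
      rw [mul_inv_rev]
      calc I.ι u * b * (I.ι u)⁻¹ = I.ι u * (I.ι v * b * (I.ι v)⁻¹) * (I.ι u)⁻¹ := by rw [hv']
        _ = _ := by group
    rw [e3, hzz, map_mul, map_mul]
    group
  refine hN (I.ι u * b * (I.ι u)⁻¹) ?_ _ ?_ e2
  · exact Subgroup.mul_mem _ (Subgroup.mul_mem _ (hXY u hu) hbY) (Subgroup.inv_mem _ (hXY u hu))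
  · have h5 : (b⁻¹ * I.ι n * b) * (I.ι n)⁻¹ ∈ N := by
      refine Subgroup.mul_mem _ ?_ (Subgroup.inv_mem _ hn')
      have := hN1.conj_mem _ hn' b⁻¹
      rwa [inv_inv] at this
    exact hN1.conj_mem _ h5 _

include hk2 in
/-- The product of two parabolic subgroups is closed. -/
theorem closed_pair (t t' : T) (htt : t ≠ t') (hRF : RF (Gp (extT M U k hk))) :
    ClosedMul (P M (U t)) (P M (U t')) := by
  intro z hz
  obtain ⟨I⟩ := inc_data M U k hk
  obtain ⟨a, ha⟩ : ∃ a, a = gen (extT M U k hk) (.inr t) := ⟨_, rfl⟩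
  obtain ⟨b, hb⟩ : ∃ b, b = gen (extT M U k hk) (.inr t') := ⟨_, rfl⟩
  have hp : ∀ u ∈ P M (U t), Commute a (I.ι u) := by
    apply H63.comm_P M (U t) I.ι a
    intro s hs
    rw [ha, I.hι]
    exact ext_comm M U k hk s t hs
  have hq : ∀ u ∈ P M (U t'), Commute b (I.ι u) := by
    apply H63.comm_P M (U t') I.ι b
    intro s hs
    rw [hb, I.hι]
    exact ext_comm M U k hk s t' hs
  have hab : Commute a b := by
    rw [ha, hb]
    exact ext_comm' M U k hk t t' htt
  have hne : a * (I.ι z * b * (I.ι z)⁻¹) * (I.ι z * b * (I.ι z)⁻¹ * a)⁻¹ ≠ 1 := by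
    intro h
    rw [mul_inv_eq_one, ha, hb] at h
    have hzr : I.ι z ∈ P (extT M U k hk) (Set.range Sum.inl) := by
      have := I.img Set.univ z (by
        have : P M Set.univ = ⊤ := by
          unfold P
          rw [Set.image_univ]
          exact closure_gen M
        rw [this]; trivial)
      rwa [Set.image_univ] at this
    obtain ⟨u, hu, v, hv, huv⟩ := comm_conj (extT M U k hk) H58.dec H58.chr quo (.inr t) (.inr t')
      (Set.range Sum.inl) (by rintro ⟨s, hs⟩; cases hs) (by rintro ⟨s, hs⟩; cases hs)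
      (fun hcon => htt (Sum.inr_injective hcon)) (I.ι z) hzr h
    rw [perp_eq M U k hk hk2 t] at hu
    rw [perp_eq M U k hk hk2 t'] at hv
    obtain ⟨u', hu', heu⟩ := I.lft (U t) _ hu
    obtain ⟨v', hv', hev⟩ := I.lft (U t') _ hv
    refine hz u' hu' v' hv' ?_
    have h2 : z * (u' * v')⁻¹ = 1 := I.inj _ (by
      rw [map_mul, map_inv, map_mul, heu, hev, ← huv, mul_inv_cancel])
    exact mul_inv_eq_one.1 h2
  obtain ⟨N, hN1, hN2, H, hH, hwH, hNH⟩ := sep M U k hk I hRF _ hne
  refine ⟨N, hN1, hN2, ?_⟩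
  intro u hu v hv n hn hzz
  apply hwH
  rw [← QuotientGroup.eq_one_iff]
  have hn2 : ((I.ι n : Gp (extT M U k hk)) : Gp (extT M U k hk) ⧸ H) = 1 :=
    (QuotientGroup.eq_one_iff _).2 (hNH n hn)
  have e1 : a * (I.ι (u * v) * b * (I.ι (u * v))⁻¹) *
      (I.ι (u * v) * b * (I.ι (u * v))⁻¹ * a)⁻¹ = 1 := by
    have hv' : I.ι v * b * (I.ι v)⁻¹ = b := by
      rw [← (hq v hv).eq]
      group
    have e2 : I.ι (u * v) * b * (I.ι (u * v))⁻¹ = I.ι u * b * (I.ι u)⁻¹ := by
      rw [map_mul, mul_inv_rev]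
      calc I.ι u * I.ι v * b * ((I.ι v)⁻¹ * (I.ι u)⁻¹)
          = I.ι u * (I.ι v * b * (I.ι v)⁻¹) * (I.ι u)⁻¹ := by group
        _ = _ := by rw [hv']
    rw [e2, mul_inv_eq_one]
    have h1 : Commute a (I.ι u) := hp u hu
    exact ((h1.mul_right hab).mul_right h1.inv_right).eq
  have e3 : ((a * (I.ι z * b * (I.ι z)⁻¹) * (I.ι z * b * (I.ι z)⁻¹ * a)⁻¹ :
      Gp (extT M U k hk)) : Gp (extT M U k hk) ⧸ H) =
      ((a * (I.ι (u * v) * b * (I.ι (u * v))⁻¹) *
        (I.ι (u * v) * b * (I.ι (u * v))⁻¹ * a)⁻¹ : Gp (extT M U k hk)) :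
        Gp (extT M U k hk) ⧸ H) := by
    rw [hzz, map_mul I.ι (u * v) n]
    simp only [QuotientGroup.mk_mul, QuotientGroup.mk_inv, hn2, mul_one]
  rw [e3, e1]
  rfl

end closed

/-- The local theorem, first half: closed double cosets in a matrix which agrees with `M` at the
finite labels of `M`. -/
theorem rf_of_closed {S : Type} [Finite S] (M M' : CoxeterMatrix S)
    (h : ∀ s t, M.M s t ≠ 0 → M'.M s t = M.M s t)
    (hcl : ∀ x y : S, ClosedMul (P M' {z | z ≠ x}) (P M' {z | z ≠ y})) : RF (Gp M) := by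
  refine unf M fun C hC => ?_
  obtain ⟨θ, hθ⟩ := lift M (fun s => gen M' s) (fun s t hst => by
    have := relHolds M' s t (by rw [h s t hst]; exact hst)
    rwa [h s t hst] at this)
  refine allCol M C M' θ some hθ ?_ ?_ hcl
  · intro s hs t ht hst s' t' h1 h2
    obtain rfl : s = s' := Option.some.inj h1
    obtain rfl : t = t' := Option.some.inj h2
    exact ⟨hst, h s t (hC s hs t ht hst)⟩
  · intro s _
    exact ⟨Option.some_ne_none s, fun t ht _ h => ht (Option.some.inj h)⟩

/-- The local theorem: one Artin group of rank `2 |S|`. -/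
theorem rf_of_plus {S : Type} [Finite S] (M M' : CoxeterMatrix S)
    (h : ∀ s t, M.M s t ≠ 0 → M'.M s t = M.M s t) (k : ℕ) (hk : k ≠ 1) (hk2 : k ≠ 2)
    (hRF : RF (Gp (extT M' (fun s : S => {z | z ≠ s}) k hk))) : RF (Gp M) := by
  refine rf_of_closed M M' h (fun x y => ?_)
  by_cases hxy : x = y
  · subst hxy
    intro z hz
    have hz' : z ∉ P M' {z | z ≠ x} := by
      intro hcon
      exact hz z hcon 1 (Subgroup.one_mem _) (by rw [mul_one])
    obtain ⟨N, h1, h2, h3⟩ :=
      closed_single M' (fun s : S => {z | z ≠ s}) k hk hk2 x hRF z hz'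
    exact ⟨N, h1, h2, fun u hu v hv n hn => h3 (u * v) (Subgroup.mul_mem _ hu hv) n hn⟩
  · exact closed_pair M' (fun s : S => {z | z ≠ s}) k hk hk2 x y hxy hRF

end Unf.H15
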